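import Pool.Agent.N623.CS.Stm

/-!
# The ultrafilters of the Carlson–Simpson lemma (project CS of helper623, part A2, by helper938)
-/

set_option autoImplicit false

namespace Pool.Agent.N938.CS

open Pool.Agent.N623.CS Filter Topology

/-- concatenation of lists -/
@[reducible] def listSemigroup (α : Type) : Semigroup (List α) where
  mul x y := x ++ y
  mul_assoc := List.append_assoc

attribute [local instance] listSemigroup Ultrafilter.mul Ultrafilter.semigroup

theorem list_mul {α : Type} (x y : List α) : x * y = x ++ y := rfl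

theorem mem_mul {α : Type} (U V : Ultrafilter (List α)) (s : Set (List α)) :
    s ∈ U * V ↔ {x | {y | x ++ y ∈ s} ∈ V} ∈ U := by
  have h := Ultrafilter.eventually_mul U V (fun x => x ∈ s)
  exact h

theorem map_mul' {α β : Type} (θ : List α → List β) (hθ : ∀ x y, θ (x ++ y) = θ x ++ θ y)
    (U V : Ultrafilter (List α)) : (U * V).map θ = U.map θ * V.map θ := by
  apply Ultrafilter.ext
  intro s
  rw [Ultrafilter.mem_map, mem_mul, mem_mul, Ultrafilter.mem_map]
  have : {x | {y | x ++ y ∈ θ ⁻¹' s} ∈ V} = θ ⁻¹' {x | {y | x ++ y ∈ s} ∈ V.map θ} := by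
    ext x
    simp only [Set.mem_ofPred_eq, Set.mem_preimage, Ultrafilter.mem_map, hθ]
    rfl
  rw [this]

theorem continuous_map' {α β : Type} (θ : α → β) :
    Continuous (fun U : Ultrafilter α => U.map θ) := by
  refine continuous_generateFrom_iff.2 ?_
  rintro _ ⟨s, rfl⟩
  exact ultrafilter_isOpen_basic (θ ⁻¹' s)

theorem t_ult : S_IDEAL → S_ULT := by
  intro hid k hk
  have : Nonempty (Fin k) := ⟨⟨0, hk⟩⟩
  have : Nonempty (Ultrafilter (List (Fin k))) := ⟨pure []⟩
  obtain ⟨L, ⟨l, hl⟩, hLc, hLi, hLm⟩ := hid (Ultrafilter (List (Fin k)))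
    (fun r => Ultrafilter.continuous_mul_left r)
  set θ : Fin k → List (Option (Fin k)) → List (Fin k) := fun a w => w.map (fun o => o.getD a)
    with hθ
  have hθa : ∀ a x y, θ a (x ++ y) = θ a x ++ θ a y := fun a x y => List.map_append
  set A : Set (List (Option (Fin k))) := {w | ∃ w', w = none :: w'} with hA
  set M : Set (Ultrafilter (List (Option (Fin k)))) :=
    {z | A ∈ z ∧ ∀ a, z.map (θ a) ∈ L} with hM
  have hMc : IsClosed M := by
    have h1 : M = {z | A ∈ z} ∩ ⋂ a, (fun z : Ultrafilter (List (Option (Fin k))) =>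
        z.map (θ a)) ⁻¹' L := by
      ext z
      simp only [hM, Set.mem_inter_iff, Set.mem_ofPred_eq, Set.mem_iInter, Set.mem_preimage]
    rw [h1]
    exact (ultrafilter_isClosed_basic A).inter
      (isClosed_iInter fun a => hLc.preimage (continuous_map' (θ a)))
  have hMm : ∀ᵉ (x ∈ M) (y ∈ M), x * y ∈ M := by
    rintro x ⟨hx1, hx2⟩ y ⟨hy1, hy2⟩
    refine ⟨?_, fun a => ?_⟩
    · rw [mem_mul]
      filter_upwards [hx1] with w hw
      obtain ⟨w', rfl⟩ := hw
      exact Filter.Eventually.of_forall fun v => ⟨w' ++ v, rfl⟩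
    · rw [map_mul' _ (hθa a)]
      exact hLi _ _ (hy2 a)
  have hMn : M.Nonempty := by
    refine ⟨pure [none] * l.map (List.map some), ?_, fun a => ?_⟩
    · rw [mem_mul]
      show _ ∈ (pure [none] : Ultrafilter (List (Option (Fin k))))
      rw [Ultrafilter.mem_pure]
      show {y | [none] ++ y ∈ A} ∈ l.map (List.map some)
      rw [Ultrafilter.mem_map]
      exact Filter.Eventually.of_forall fun v => ⟨List.map some v, rfl⟩
    · rw [map_mul' _ (hθa a)]
      apply hLi
      have h1 : (l.map (List.map some)).map (θ a) = l := by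
        rw [Ultrafilter.map_map]
        have h2 : (θ a ∘ List.map some : List (Fin k) → List (Fin k)) = id := by
          funext w
          simp [hθ]
        rw [h2, Ultrafilter.map_id]
      rw [h1]
      exact hl
  obtain ⟨e, heM, hee⟩ := exists_idempotent_in_compact_subsemigroup
    (fun r : Ultrafilter (List (Option (Fin k))) => Ultrafilter.continuous_mul_left r) M hMn
    hMc.isCompact hMm
  refine ⟨e, fun a => e.map (θ a), fun a => rfl, heM.1, ?_⟩
  intro a b s hs
  have h1 : ∀ a, e.map (θ a) * e.map (θ a) = e.map (θ a) := by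
    intro a
    rw [← map_mul' _ (hθa a), hee]
  obtain ⟨z, hz⟩ := hLm (e.map (θ b)) (heM.2 b) (e.map (θ a)) (heM.2 a)
  have h2 : e.map (θ a) * e.map (θ b) = e.map (θ a) := by
    calc e.map (θ a) * e.map (θ b) = z * e.map (θ b) * e.map (θ b) := by rw [← hz]
      _ = z * (e.map (θ b) * e.map (θ b)) := mul_assoc _ _ _
      _ = z * e.map (θ b) := by rw [h1]
      _ = e.map (θ a) := hz.symm
  rw [← mem_mul, h2]
  exact hs

end Pool.Agent.N938.CS
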